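import Pool.Agent.R601.QT.Dist
import Pool.Agent.R601.QT.Truth2
import Pool.Agent.R601.QT.Rec

set_option autoImplicit false

/-!
# Theories without restricted completions versus three classical classes

The definitions are in `Pool/Agent/R601/QT/Defs.lean`: terms and formulas of the language
`0, 1, +, ×, <`, satisfaction in structures `Str M`, bounded formulas `IsD0`, `Σ_n`-formulas
`IsS true n`, the deductive closure `Cn`, theories `IsTheory`, Robinson arithmetic `Q left` (with
one of the two usual axioms for the order), and the classes `Tnrestr`, `Tmrdp`, `Ttruth`, `Tnrec` of
consistent theories containing `Q left`.

One complete theory `T` is outside all three classes and has no completion of restricted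
complexity.  It is the theory of a structure `M(V, R)`: its elements are the natural numbers and
the nonempty finite subsets of the set of nodes `V` of a forest; `+` is the union on sets,
`n + s = s + n = s`, `n · s = s`, `s · 0 = 0`, `s · (n + 1) = s`, `s · t` is the union of `s` and
the set of all elements of `t` which are `R`-related to an element of `s`; and `n < s`, `s < t` iff
`s ⊆ t`.

* The bounded quantifiers range over numbers and subsets of given finite sets, so that bounded
  formulas are preserved by finite partial isomorphisms of `(V, R)`.  The forest has trees of type
  `A_r` and its copies with a root of type `B_r`, where `A_{r+1}` has infinitely many children of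
  types `A_r` and `B_r`, and `B_{r+1}` has only children of type `A_r`; adding one tree `B_m` to the
  forest does not change the true `Σ_n`-sentences if `n ≤ m`, but changes the theory.
* The map which replaces each node by two nodes in different copies of the forest gives a
  self-embedding which does not preserve the bounded formula `x is a singleton`.
* For fixed parameters `d` in the set part, all formulas define arithmetical relations on the
  numbers, and all of these are defined by bounded formulas with the parameter `d`.  So there is no
  truth predicate for bounded formulas.
* The structure is recursive and nonstandard.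
-/

namespace Pool.Agent.Results.MP_352f7f_lc.AllThreeDiffer

open Pool.Agent.R601.QT

/-- There is a complete theory containing `Q` (with either axiom for the order) such that no
completion of it is of restricted complexity, but which does not prove MRDP, does not support a
definable truth predicate for `Δ_0`-formulas, and has a nonstandard recursive model.  Hence the
class of the theories without completions of restricted complexity is different from each of the
three other classes. -/
theorem result :
    (∃ T : Set Fm, IsComplete T ∧ ∀ left : Bool,
      T ∈ Tnrestr left ∧ T ∉ Tmrdp left ∧ T ∉ Ttruth left ∧ T ∉ Tnrec left) ∧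
    ∀ left : Bool, Tnrestr left ≠ Tmrdp left ∧ Tnrestr left ≠ Ttruth left ∧
      Tnrestr left ≠ Tnrec left := by
  have h : ∀ left : Bool, Th (str (Rel rho)) ∈ Tnrestr left ∧ Th (str (Rel rho)) ∉ Tmrdp left ∧
      Th (str (Rel rho)) ∉ Ttruth left ∧ Th (str (Rel rho)) ∉ Tnrec left := by
    intro left
    refine ⟨⟨⟨isTheory_Th _, consistent_Th _, models_Q _ _⟩, ?_⟩, not_mrdp left,
      not_truth _ left, not_nrec left⟩
    intro T' h1 h2 h3 _
    rw [eq_of_complete (isComplete_Th _) h1 h2 h3]
    exact not_restricted
  refine ⟨⟨Th (str (Rel rho)), isComplete_Th _, h⟩, fun left => ?_⟩
  obtain ⟨h1, h2, h3, h4⟩ := h left
  exact ⟨fun h => h2 (h ▸ h1), fun h => h3 (h ▸ h1), fun h => h4 (h ▸ h1)⟩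

end Pool.Agent.Results.MP_352f7f_lc.AllThreeDiffer
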